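import Pool.Agent.Helper10.RC.Basic

/-!
# The polar decomposition in a commutant
-/

open scoped ENNReal NNReal InnerProductSpace ComplexOrder
open Filter Topology

attribute [-instance] CStarMatrix.instAlgebra CStarMatrix.instModule CStarMatrix.instSMul
  CStarMatrix.instMulAction CStarMatrix.instDistribMulAction

noncomputable section
namespace RC
universe u

namespace PolarAux

variable {H : Type u} [NormedAddCommGroup H] [InnerProductSpace ℂ H] [CompleteSpace H]

/-- the closure of the range -/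
def K (T : H →L[ℂ] H) : Submodule ℂ H := (LinearMap.range (T : H →ₗ[ℂ] H)).topologicalClosure

instance (T : H →L[ℂ] H) : CompleteSpace (K T) :=
  (Submodule.isClosed_topologicalClosure _).completeSpace_coe

omit [CompleteSpace H] in
lemma mem_K (T : H →L[ℂ] H) (ζ : H) : T ζ ∈ K T :=
  Submodule.le_topologicalClosure _ ⟨ζ, rfl⟩

/-- `ζ ↦ T ζ` as a map to the closure of the range -/
def e (T : H →L[ℂ] H) : H →ₗ[ℂ] K T := (T : H →ₗ[ℂ] H).codRestrict (K T) (mem_K T)

lemma e_dense (T : H →L[ℂ] H) : DenseRange (e T) := by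
  intro k
  rw [mem_closure_iff_seq_limit]
  have hk : (k : H) ∈ closure ((LinearMap.range (T : H →ₗ[ℂ] H) : Submodule ℂ H) : Set H) := k.2
  rw [mem_closure_iff_seq_limit] at hk
  obtain ⟨x, hx, hx'⟩ := hk
  choose y hy using hx
  refine ⟨fun n => e T (y n), fun n => ⟨y n, rfl⟩, ?_⟩
  rw [tendsto_subtype_rng]
  have h1 : (fun n => ((e T (y n) : K T) : H)) = x := funext hy
  rw [h1]
  exact hx'

omit [CompleteSpace H] in
/-- induction on the closure of the range -/
lemma K_induction (T : H →L[ℂ] H) {P : H → Prop} (hc : IsClosed {k | P k}) (h : ∀ ζ, P (T ζ)) :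
    ∀ k ∈ K T, P k := by
  intro k hk
  have : closure ((LinearMap.range (T : H →ₗ[ℂ] H) : Submodule ℂ H) : Set H) ⊆ {k | P k} := by
    apply closure_minimal _ hc
    rintro _ ⟨ζ, rfl⟩
    exact h ζ
  exact this hk

lemma mem_orth (T : H →L[ℂ] H) (hT : IsSelfAdjoint T) (ζ : H) : ζ ∈ (K T)ᗮ ↔ T ζ = 0 := by
  have hsym : ∀ x y : H, ⟪T x, y⟫_ℂ = ⟪x, T y⟫_ℂ := by
    intro x y
    rw [← ContinuousLinearMap.adjoint_inner_right, ← ContinuousLinearMap.star_eq_adjoint,
      hT.star_eq]
  constructor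
  · intro h
    have h1 : ⟪T (T ζ), ζ⟫_ℂ = 0 := (Submodule.mem_orthogonal _ _).1 h _ (mem_K T (T ζ))
    rw [hsym] at h1
    exact inner_self_eq_zero.1 h1
  · intro h
    rw [Submodule.mem_orthogonal]
    refine K_induction T (P := fun u => ⟪u, ζ⟫_ℂ = 0) ?_ ?_
    · exact isClosed_eq (by fun_prop) continuous_const
    · intro η
      rw [hsym, h, inner_zero_right]

variable (T x : H →L[ℂ] H)

/-- the partial isometry of the polar decomposition -/
def V : H →L[ℂ] H :=
  ((x : H →ₗ[ℂ] H).extendOfNorm (e T)).comp (K T).orthogonalProjectionOnto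

variable (hT : IsSelfAdjoint T) (hx : ∀ ζ, ‖T ζ‖ = ‖x ζ‖)

include hx in
lemma V_T (ζ : H) : V T x (T ζ) = x ζ := by
  have h1 : (K T).orthogonalProjectionOnto (T ζ) = e T ζ :=
    (K T).orthogonalProjectionOnto_mem_subspace_eq_self (e T ζ)
  have h2 := LinearMap.extendOfNorm_eq (f := (x : H →ₗ[ℂ] H)) (e := e T) (e_dense T)
    ⟨1, fun ζ => by rw [one_mul]; exact (hx ζ).ge⟩ ζ
  rw [V, ContinuousLinearMap.comp_apply, h1, h2]
  rfl

lemma V_orth (ζ : H) (h : ζ ∈ (K T)ᗮ) : V T x ζ = 0 := by
  rw [V, ContinuousLinearMap.comp_apply,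
    Submodule.orthogonalProjectionOnto_apply_of_mem_orthogonal h, map_zero]

lemma V_P (ζ : H) : V T x ((K T).starProjection ζ) = V T x ζ := by
  have h := V_orth T x _ ((K T).sub_starProjection_mem_orthogonal ζ)
  rw [map_sub, sub_eq_zero] at h
  exact h.symm

include hx in
lemma norm_V_of_mem (k : H) (hk : k ∈ K T) : ‖V T x k‖ = ‖k‖ := by
  refine K_induction T (P := fun k => ‖V T x k‖ = ‖k‖) ?_ ?_ k hk
  · exact isClosed_eq (by fun_prop) (by fun_prop)
  · intro ζ
    rw [V_T T x hx, hx]

include hx in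
lemma norm_V (ζ : H) : ‖V T x ζ‖ = ‖(K T).starProjection ζ‖ := by
  rw [← V_P T x ζ, norm_V_of_mem T x hx _ ((K T).starProjection_apply_mem ζ)]

include hx in
lemma star_V_mul_V : star (V T x) * V T x = (K T).starProjection := by
  have h : ((star (V T x) * V T x : H →L[ℂ] H) : H →ₗ[ℂ] H) =
      ((K T).starProjection : H →ₗ[ℂ] H) := by
    rw [← ext_inner_map]
    intro ζ
    have h1 : ⟪(star (V T x) * V T x) ζ, ζ⟫_ℂ = ⟪V T x ζ, V T x ζ⟫_ℂ := by
      rw [mul_apply_eq_comp, ContinuousLinearMap.star_eq_adjoint,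
        ContinuousLinearMap.adjoint_inner_left]
    have h2 : ⟪(K T).starProjection ζ, ζ⟫_ℂ =
        ⟪(K T).starProjection ζ, (K T).starProjection ζ⟫_ℂ := by
      conv_lhs => rw [← (K T).starProjection_eq_self_iff.2 ((K T).starProjection_apply_mem ζ)]
      rw [(K T).inner_starProjection_left_eq_right]
    change ⟪(star (V T x) * V T x) ζ, ζ⟫_ℂ = ⟪(K T).starProjection ζ, ζ⟫_ℂ
    rw [h1, h2, inner_self_eq_norm_sq_to_K, inner_self_eq_norm_sq_to_K, norm_V T x hx]
  exact ContinuousLinearMap.coe_injective h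

include hT hx in
theorem polar (S : Set (H →L[ℂ] H)) (hxS : x ∈ S.centralizer)
    (hTS : T ∈ S.centralizer) :
    ∃ v ∈ S.centralizer, IsStarProjection (v * star v) ∧ IsStarProjection (star v * v) ∧
    v * star v * x = x ∧ x * (star v * v) = x ∧
    (∀ y : H →L[ℂ] H, y * x = 0 → y * (v * star v) = 0) ∧
    (∀ y : H →L[ℂ] H, x * y = 0 → star v * v * y = 0) := by
  have hVP : V T x * (K T).starProjection = V T x := by
    ext ζ
    exact V_P T x ζ
  have hVV := star_V_mul_V T x hx
  refine ⟨V T x, ?_, ?_, ?_, ?_, ?_, ?_, ?_⟩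
  · rw [Set.mem_centralizer_iff]
    intro s hs
    have hxs := Set.mem_centralizer_iff.1 hxS s hs
    have hTs := Set.mem_centralizer_iff.1 hTS s hs
    ext ζ
    have h1 : V T x (s (ζ - (K T).starProjection ζ)) = 0 := by
      apply V_orth
      have h2 := (K T).sub_starProjection_mem_orthogonal ζ
      rw [mem_orth T hT] at h2 ⊢
      have := congrArg (fun F : H →L[ℂ] H => F (ζ - (K T).starProjection ζ)) hTs
      simp only [mul_apply_eq_comp] at this
      rw [← this, h2, map_zero]
    have h2 : ∀ k ∈ K T, V T x (s k) = s (V T x k) := by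
      refine K_induction T (P := fun k => V T x (s k) = s (V T x k)) ?_ ?_
      · exact isClosed_eq (by fun_prop) (by fun_prop)
      · intro η
        have e1 := congrArg (fun F : H →L[ℂ] H => F η) hTs
        have e2 := congrArg (fun F : H →L[ℂ] H => F η) hxs
        simp only [mul_apply_eq_comp] at e1 e2
        rw [e1, V_T T x hx, V_T T x hx, e2]
    rw [map_sub, map_sub, sub_eq_zero, h2 _ ((K T).starProjection_apply_mem ζ), V_P] at h1
    exact h1.symm
  · constructor
    · change V T x * star (V T x) * (V T x * star (V T x)) = V T x * star (V T x)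
      rw [mul_assoc, ← mul_assoc (star (V T x)), hVV, ← mul_assoc, hVP]
    · exact IsSelfAdjoint.mul_star_self _
  · rw [hVV]
    exact isStarProjection_starProjection
  · ext ζ
    have h1 : (star (V T x)) (V T x (T ζ)) = T ζ := by
      have h2 := congrArg (fun F : H →L[ℂ] H => F (T ζ)) hVV
      simp only [mul_apply_eq_comp] at h2
      rw [h2, (K T).starProjection_eq_self_iff]
      exact mem_K T ζ
    rw [mul_apply_eq_comp, mul_apply_eq_comp, ← V_T T x hx, h1]
  · rw [hVV]
    ext ζ
    have h1 : T (ζ - (K T).starProjection ζ) = 0 :=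
      (mem_orth T hT _).1 ((K T).sub_starProjection_mem_orthogonal ζ)
    have h2 : x (ζ - (K T).starProjection ζ) = 0 := by
      rw [← norm_eq_zero, ← hx, h1, norm_zero]
    rw [map_sub, sub_eq_zero] at h2
    exact h2.symm
  · intro y hy
    have h1 : y * V T x = 0 := by
      ext ζ
      rw [mul_apply_eq_comp, ← V_P T x ζ]
      refine K_induction T (P := fun k => y (V T x k) = (0 : H →L[ℂ] H) ζ) ?_ ?_ _
        ((K T).starProjection_apply_mem ζ)
      · exact isClosed_eq (by fun_prop) continuous_const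
      · intro η
        rw [V_T T x hx]
        exact congrArg (fun F : H →L[ℂ] H => F η) hy
    rw [← mul_assoc, h1, zero_mul]
  · intro y hy
    rw [hVV]
    ext ζ
    rw [mul_apply_eq_comp, zero_apply,
      (K T).starProjection_apply_eq_zero_iff, mem_orth T hT, ← norm_eq_zero, hx]
    have := congrArg (fun F : H →L[ℂ] H => F ζ) hy
    simp only [mul_apply_eq_comp] at this
    rw [this]
    simp

end PolarAux

/-- The polar decomposition in the commutant of a selfadjoint set. -/
theorem polarP : PolarP.{u} := by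
  intro H _ _ _ S hS x hx
  refine PolarAux.polar (CFC.abs x) x (CFC.abs_nonneg x).isSelfAdjoint ?_ S hx ?_
  · intro ζ
    have h1 : CFC.abs x * CFC.abs x = star x * x := CFC.abs_mul_abs x
    have h2 : IsSelfAdjoint (CFC.abs x) := (CFC.abs_nonneg x).isSelfAdjoint
    have h3 : ∀ y : H →L[ℂ] H, ((‖y ζ‖ ^ 2 : ℝ) : ℂ) = ⟪(star y * y) ζ, ζ⟫_ℂ := by
      intro y
      rw [mul_apply_eq_comp, ContinuousLinearMap.star_eq_adjoint,
        ContinuousLinearMap.adjoint_inner_left, inner_self_eq_norm_sq_to_K]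
      push_cast
      rfl
    have h4 : ‖(CFC.abs x) ζ‖ ^ 2 = ‖x ζ‖ ^ 2 := by
      have h5 := h3 (CFC.abs x)
      have h6 := h3 x
      rw [h2.star_eq, h1, ← h6] at h5
      exact_mod_cast h5
    exact (sq_eq_sq₀ (norm_nonneg _) (norm_nonneg _)).1 h4
  · rw [Set.mem_centralizer_iff] at hx ⊢
    intro s hs
    have h1 : Commute s x := hx s hs
    have h2 : Commute (star s) x := hx (star s) (hS s hs)
    exact Commute.cfcAbs_right h1.symm h2.symm

end RC
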