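import Pool.Agent.Helper10.RC.Basic

/-!
# Maximal partial isometries
-/

open scoped ENNReal NNReal InnerProductSpace ComplexOrder
open Filter Topology

attribute [-instance] CStarMatrix.instAlgebra CStarMatrix.instModule CStarMatrix.instSMul
  CStarMatrix.instMulAction CStarMatrix.instDistribMulAction

noncomputable section
namespace RC
universe u

namespace MaxAux

variable {H : Type u} [NormedAddCommGroup H] [InnerProductSpace ℂ H] [CompleteSpace H]

section Alg

variable {u v w : H →L[ℂ] H}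

lemma self_ext (hv : IsStarProjection (star v * v)) : Ext v v := by
  have h1 : star (v * (1 - star v * v)) * (v * (1 - star v * v)) = 0 := by
    have hs : star v * v * (star v * v) = star v * v := hv.isIdempotentElem
    rw [star_mul, star_sub, star_one, star_mul, star_star]
    calc (1 - star v * v) * star v * (v * (1 - star v * v))
        = (star v * v - star v * v * (star v * v)) * (1 - star v * v) := by noncomm_ring
      _ = 0 := by rw [hs, sub_self, zero_mul]
  rw [CStarRing.star_mul_self_eq_zero_iff, mul_sub, mul_one, sub_eq_zero] at h1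
  exact h1.symm

lemma s_mul (hv : IsStarProjection (star v * v)) (hw : IsStarProjection (star w * w))
    (h : Ext v w) : star w * w * (star v * v) = star v * v := by
  have hs : star v * v * (star v * v) = star v * v := hv.isIdempotentElem
  have ht : star w * w * (star w * w) = star w * w := hw.isIdempotentElem
  have h0 : w * (star v * v) = v := h
  have h1 : star v = star v * v * star w := by
    conv_lhs => rw [← h0]
    rw [star_mul, star_mul, star_star]
  have h2 : star v * v * (star w * w) * (star v * v) = star v * v := by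
    calc star v * v * (star w * w) * (star v * v)
        = (star v * v * star w) * (w * (star v * v)) := by noncomm_ring
      _ = star v * v := by rw [← h1, h0]
  have h3 : star ((1 - star w * w) * (star v * v)) * ((1 - star w * w) * (star v * v)) = 0 := by
    rw [star_mul, star_sub, star_one, star_mul, star_mul, star_star, star_star]
    calc star v * v * (1 - star w * w) * ((1 - star w * w) * (star v * v))
        = star v * v * (star v * v) - star v * v * (star w * w) * (star v * v)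
          - star v * v * (star w * w) * (star v * v)
          + star v * v * (star w * w * (star w * w)) * (star v * v) := by noncomm_ring
      _ = 0 := by rw [ht, hs, h2]; abel
  rw [CStarRing.star_mul_self_eq_zero_iff, sub_mul, one_mul, sub_eq_zero] at h3
  exact h3.symm

lemma star_mul' (hv : IsStarProjection (star v * v)) (hw : IsStarProjection (star w * w))
    (h : Ext v w) : star w * v = star v * v := by
  have h0 : w * (star v * v) = v := h
  rw [← s_mul hv hw h]
  conv_lhs => rw [← h0]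
  rw [mul_assoc]

lemma mul_star' (hv : IsStarProjection (star v * v)) (h : Ext v w) :
    v * star w = v * star v := by
  have h0 : w * (star v * v) = v := h
  have h1 : star v = star v * v * star w := by
    conv_lhs => rw [← h0]
    rw [star_mul, star_mul, star_star]
  have h2 : v * (star v * v) = v := self_ext hv
  conv_rhs => rw [h1]
  rw [← mul_assoc, h2]

lemma ext_trans (hu : IsStarProjection (star u * u)) (hv : IsStarProjection (star v * v))
    (h1 : Ext u v) (h2 : Ext v w) : Ext u w := by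
  have h3 := s_mul hu hv h1
  have h4 : w * (star v * v) = v := h2
  have h5 : v * (star u * u) = u := h1
  change w * (star u * u) = u
  rw [← h3, ← mul_assoc, h4, h5]

/-- the pythagorean theorem -/
lemma pyth_aux (a b : H →L[ℂ] H) (h : star a * (b - a) = 0) (ζ : H) :
    ‖b ζ‖ ^ 2 = ‖a ζ‖ ^ 2 + ‖(b - a) ζ‖ ^ 2 := by
  have h1 : ⟪a ζ, (b - a) ζ⟫_ℂ = 0 := by
    rw [← ContinuousLinearMap.adjoint_inner_right, ← ContinuousLinearMap.star_eq_adjoint,
      ← mul_apply_eq_comp, h, zero_apply, inner_zero_right]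
  have h2 := norm_add_sq_eq_norm_sq_add_norm_sq_of_inner_eq_zero _ _ h1
  have h3 : a ζ + (b - a) ζ = b ζ := by
    simp
  rw [h3] at h2
  nlinarith [h2]

lemma pyth (hv : IsStarProjection (star v * v)) (hw : IsStarProjection (star w * w))
    (h : Ext v w) (ζ : H) : ‖w ζ‖ ^ 2 = ‖v ζ‖ ^ 2 + ‖(w - v) ζ‖ ^ 2 := by
  apply pyth_aux
  have h1 := congrArg star (star_mul' hv hw h)
  rw [star_mul, star_mul, star_star] at h1
  rw [mul_sub, h1, star_star, sub_self]

lemma pyth_star (hv : IsStarProjection (star v * v))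
    (h : Ext v w) (ζ : H) : ‖star w ζ‖ ^ 2 = ‖star v ζ‖ ^ 2 + ‖(star w - star v) ζ‖ ^ 2 := by
  apply pyth_aux
  rw [star_star, mul_sub, mul_star' hv h, sub_self]

lemma norm_le_one (hv : IsStarProjection (star v * v)) : ‖v‖ ≤ 1 := by
  have h1 := hv.norm_le
  rw [CStarRing.norm_star_mul_self] at h1
  nlinarith [norm_nonneg v]

end Alg

omit [InnerProductSpace ℂ H] in
/-- convergence of sequences with orthogonal increments -/
lemma exists_lim {x : ℕ → H} {C : ℝ} (hC : ∀ n, ‖x n‖ ≤ C)
    (h : ∀ n m, n ≤ m → ‖x m‖ ^ 2 = ‖x n‖ ^ 2 + ‖x m - x n‖ ^ 2) :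
    ∃ y, Tendsto x atTop (𝓝 y) := by
  have hmono : Monotone fun n => ‖x n‖ ^ 2 := by
    intro n m hnm
    have := h n m hnm
    dsimp only
    nlinarith [sq_nonneg ‖x m - x n‖]
  have hbdd : BddAbove (Set.range fun n => ‖x n‖ ^ 2) := by
    refine ⟨C ^ 2, ?_⟩
    rintro _ ⟨n, rfl⟩
    exact pow_le_pow_left₀ (norm_nonneg _) (hC n) 2
  have ht := tendsto_atTop_ciSup hmono hbdd
  have hc := ht.cauchySeq
  have hx : CauchySeq x := by
    rw [Metric.cauchySeq_iff'] at hc ⊢
    intro ε hε
    obtain ⟨N, hN⟩ := hc (ε ^ 2) (by positivity)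
    refine ⟨N, fun n hn => ?_⟩
    have h1 := hN n hn
    rw [Real.dist_eq] at h1
    have h2 := h N n hn
    have h3 := (abs_lt.1 h1).2
    rw [dist_eq_norm]
    have h4 : ‖x n - x N‖ ^ 2 < ε ^ 2 := by linarith
    exact lt_of_pow_lt_pow_left₀ 2 hε.le h4
  exact cauchySeq_tendsto_of_complete hx

/-- strong limits -/
lemma exists_op {v : ℕ → (H →L[ℂ] H)} (hC : ∀ n, ‖v n‖ ≤ 1)
    (h : ∀ n m, n ≤ m → ∀ ζ, ‖v m ζ‖ ^ 2 = ‖v n ζ‖ ^ 2 + ‖(v m - v n) ζ‖ ^ 2) :
    ∃ w : H →L[ℂ] H, ∀ ζ, Tendsto (fun n => v n ζ) atTop (𝓝 (w ζ)) := by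
  have h1 : ∀ ζ, ∃ y, Tendsto (fun n => v n ζ) atTop (𝓝 y) := by
    intro ζ
    refine exists_lim (C := ‖ζ‖) (fun n => ?_) (fun n m hnm => ?_)
    · calc ‖v n ζ‖ ≤ ‖v n‖ * ‖ζ‖ := (v n).le_opNorm ζ
        _ ≤ 1 * ‖ζ‖ := by gcongr; exact hC n
        _ = ‖ζ‖ := one_mul _
    · simpa using h n m hnm ζ
  choose f hf using h1
  refine ⟨continuousLinearMapOfTendsto (l := atTop) v (f := f) (tendsto_pi_nhds.2 hf), ?_⟩
  intro ζ
  exact hf ζ

end MaxAux

open MaxAux in
/-- Maximal partial isometries. -/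
theorem maxP : MaxP.{u} := by
  intro H _ _ _ S ξ hFV V hV0 hV hlim
  -- the choice of the sequence
  have hnext : ∀ (n : ℕ) (v : V), ∃ w : V, Ext v.1 w.1 ∧
      ∀ u ∈ V, Ext v.1 u → ‖u ξ‖ ^ 2 ≤ ‖w.1 ξ‖ ^ 2 + 1 / ((n : ℝ) + 1) := by
    intro n v
    set A : Set ℝ := {t | ∃ u ∈ V, Ext v.1 u ∧ t = ‖u ξ‖ ^ 2} with hA
    have hne : A.Nonempty := ⟨_, v.1, v.2, self_ext (hV _ v.2).2, rfl⟩
    have hbdd : BddAbove A := by
      refine ⟨1, ?_⟩
      rintro _ ⟨u, hu, _, rfl⟩
      have h1 : ‖u ξ‖ ≤ 1 := by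
        calc ‖u ξ‖ ≤ ‖u‖ * ‖ξ‖ := u.le_opNorm ξ
          _ ≤ 1 * 1 := by
            rw [hFV.norm]
            have := norm_le_one (hV u hu).2
            nlinarith
          _ = 1 := one_mul _
      nlinarith [norm_nonneg (u ξ)]
    obtain ⟨_, ⟨w, hw, hvw, rfl⟩, hlt⟩ := exists_lt_of_lt_csSup hne
      (sub_lt_self (sSup A) (show (0 : ℝ) < 1 / ((n : ℝ) + 1) by positivity))
    refine ⟨⟨w, hw⟩, hvw, fun u hu hvu => ?_⟩
    have h1 : ‖u ξ‖ ^ 2 ≤ sSup A := le_csSup hbdd ⟨u, hu, hvu, rfl⟩
    linarith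
  choose next hnext1 hnext2 using hnext
  let F : ℕ → V := fun n => Nat.rec (⟨0, hV0⟩ : V) (fun n v => next n v) n
  have hF : ∀ n, F (n + 1) = next n (F n) := fun n => rfl
  set v : ℕ → (H →L[ℂ] H) := fun n => (F n).1 with hv
  have hvV : ∀ n, v n ∈ V := fun n => (F n).2
  have hp : ∀ n, IsStarProjection (star (v n) * v n) := fun n => (hV _ (hvV n)).2
  have hext1 : ∀ n, Ext (v n) (v (n + 1)) := by
    intro n
    simp only [hv, hF]
    exact hnext1 n (F n)
  have hbest : ∀ n, ∀ u ∈ V, Ext (v n) u → ‖u ξ‖ ^ 2 ≤ ‖v (n + 1) ξ‖ ^ 2 + 1 / ((n : ℝ) + 1) := by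
    intro n u hu h
    simp only [hv, hF]
    exact hnext2 n (F n) u hu h
  have hext : ∀ n m, n ≤ m → Ext (v n) (v m) := by
    intro n m hnm
    induction hnm with
    | refl => exact self_ext (hp n)
    | step _ ih => exact ext_trans (hp n) (hp _) ih (hext1 _)
  -- limits
  obtain ⟨w, hw⟩ := exists_op (v := v) (fun n => norm_le_one (hp n))
    (fun n m hnm ζ => pyth (hp n) (hp m) (hext n m hnm) ζ)
  obtain ⟨w', hw'⟩ := exists_op (v := fun n => star (v n))
    (fun n => by rw [norm_star]; exact norm_le_one (hp n))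
    (fun n m hnm ζ => pyth_star (hp n) (hext n m hnm) ζ)
  have hww : w' = star w := by
    ext ζ
    apply ext_inner_right ℂ
    intro η
    have h1 : Tendsto (fun n => ⟪(star (v n)) ζ, η⟫_ℂ) atTop (𝓝 ⟪w' ζ, η⟫_ℂ) :=
      (hw' ζ).inner tendsto_const_nhds
    have h2 : Tendsto (fun n => ⟪ζ, v n η⟫_ℂ) atTop (𝓝 ⟪ζ, w η⟫_ℂ) :=
      tendsto_const_nhds.inner (hw η)
    have h3 : (fun n => ⟪(star (v n)) ζ, η⟫_ℂ) = fun n => ⟪ζ, v n η⟫_ℂ := by
      funext n
      rw [ContinuousLinearMap.star_eq_adjoint, ContinuousLinearMap.adjoint_inner_left]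
    rw [h3] at h1
    rw [tendsto_nhds_unique h1 h2, ContinuousLinearMap.star_eq_adjoint,
      ContinuousLinearMap.adjoint_inner_left]
  rw [hww] at hw'
  have hwS : w ∈ S.centralizer := by
    rw [Set.mem_centralizer_iff]
    intro s hs
    ext ζ
    have h1 : Tendsto (fun n => s (v n ζ)) atTop (𝓝 (s (w ζ))) :=
      (s.continuous.tendsto _).comp (hw ζ)
    have h2 : Tendsto (fun n => v n (s ζ)) atTop (𝓝 (w (s ζ))) := hw (s ζ)
    have h3 : (fun n => s (v n ζ)) = fun n => v n (s ζ) := by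
      funext n
      have := Set.mem_centralizer_iff.1 (hV _ (hvV n)).1 s hs
      exact congrArg (fun T : H →L[ℂ] H => T ζ) this
    rw [h3] at h1
    exact tendsto_nhds_unique h1 h2
  have hE : ∀ n, Ext (v n) w := by
    intro n
    change w * (star (v n) * v n) = v n
    ext ζ
    have h1 : Tendsto (fun m => v m ((star (v n) * v n) ζ)) atTop
        (𝓝 (w ((star (v n) * v n) ζ))) := hw _
    have h2 : Tendsto (fun m => v m ((star (v n) * v n) ζ)) atTop (𝓝 (v n ζ)) := by
      apply tendsto_const_nhds.congr'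
      filter_upwards [eventually_ge_atTop n] with m hm
      have h3 : v m * (star (v n) * v n) = v n := hext n m hm
      exact (congrArg (fun T : H →L[ℂ] H => T ζ) h3).symm
    exact tendsto_nhds_unique h1 h2
  have hE' : ∀ n, star w * v n = star (v n) * v n := by
    intro n
    ext ζ
    have h1 : Tendsto (fun m => star (v m) (v n ζ)) atTop (𝓝 (star w (v n ζ))) := hw' _
    have h2 : Tendsto (fun m => star (v m) (v n ζ)) atTop (𝓝 ((star (v n) * v n) ζ)) := by
      apply tendsto_const_nhds.congr'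
      filter_upwards [eventually_ge_atTop n] with m hm
      have h3 := star_mul' (hp n) (hp m) (hext n m hm)
      exact (congrArg (fun T : H →L[ℂ] H => T ζ) h3).symm
    exact tendsto_nhds_unique h1 h2
  have hlim2 : ∀ ζ, Tendsto (fun n => (star (v n) * v n) ζ) atTop (𝓝 ((star w * w) ζ)) := by
    intro ζ
    have h1 : Tendsto (fun n => star w (v n ζ)) atTop (𝓝 (star w (w ζ))) :=
      ((star w).continuous.tendsto _).comp (hw ζ)
    have h2 : (fun n => star w (v n ζ)) = fun n => (star (v n) * v n) ζ := by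
      funext n
      exact congrArg (fun T : H →L[ℂ] H => T ζ) (hE' n)
    rw [h2] at h1
    exact h1
  have hproj : IsStarProjection (star w * w) := by
    constructor
    · change star w * w * (star w * w) = star w * w
      have h1 : ∀ n, star w * w * (star (v n) * v n) = star (v n) * v n := by
        intro n
        rw [mul_assoc, show w * (star (v n) * v n) = v n from hE n, hE' n]
      ext ζ
      have h2 : Tendsto (fun n => (star w * w) ((star (v n) * v n) ζ)) atTop
          (𝓝 ((star w * w) ((star w * w) ζ))) :=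
        ((star w * w).continuous.tendsto _).comp (hlim2 ζ)
      have h3 : (fun n => (star w * w) ((star (v n) * v n) ζ)) =
          fun n => (star (v n) * v n) ζ := by
        funext n
        exact congrArg (fun T : H →L[ℂ] H => T ζ) (h1 n)
      rw [h3] at h2
      exact tendsto_nhds_unique h2 (hlim2 ζ)
    · exact IsSelfAdjoint.star_mul_self _
  have hwV : w ∈ V := hlim v w hvV hext1 hwS hproj hE hw hw'
  refine ⟨w, hwV, fun u hu hwu => ?_⟩
  have hup := (hV u hu).2
  have h1 := pyth hproj hup hwu ξ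
  have h2 : ∀ n : ℕ, ‖u ξ‖ ^ 2 ≤ ‖w ξ‖ ^ 2 + 1 / ((n : ℝ) + 1) := by
    intro n
    have h3 := hbest n u hu (ext_trans (hp n) hproj (hE n) hwu)
    have h4 := pyth (hp (n + 1)) hproj (hE (n + 1)) ξ
    nlinarith [sq_nonneg ‖(w - v (n + 1)) ξ‖]
  have h3 : ‖u ξ‖ ^ 2 ≤ ‖w ξ‖ ^ 2 := by
    have h4 : Tendsto (fun n : ℕ => ‖w ξ‖ ^ 2 + 1 / ((n : ℝ) + 1)) atTop (𝓝 (‖w ξ‖ ^ 2 + 0)) :=
      tendsto_const_nhds.add tendsto_one_div_add_atTop_nhds_zero_nat
    rw [add_zero] at h4
    exact ge_of_tendsto' h4 h2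
  have h4 : ‖(u - w) ξ‖ ^ 2 = 0 := le_antisymm (by linarith) (sq_nonneg _)
  have h5 : (u - w) ξ = 0 := by
    rw [← norm_eq_zero]
    exact pow_eq_zero_iff (two_ne_zero) |>.1 h4
  have h6 : u - w ∈ S.centralizer := by
    have hu1 := (hV u hu).1
    rw [Set.mem_centralizer_iff] at hu1 hwS ⊢
    intro s hs
    rw [mul_sub, sub_mul, hu1 s hs, hwS s hs]
  exact sub_eq_zero.1 (hFV.sep _ h6 h5)

end RC
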